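import Pool.Agent.Helper5.FV.Stmts

/-! Project FV, rows FBC and FBS: colourings with given classes at `W0`. -/

set_option autoImplicit false

open Finset Pool.Agent.Helper8.UN

namespace Pool.Agent.Helper5.FV

/-- `B` is a colour class of `f` on `W` -/
def FbCl {n : ℕ} (W : Finset (Fin n)) (f : Fin n → ℕ) (B : Finset (Fin n)) : Prop :=
  ∀ y ∈ B, ∀ z ∈ W, (f z = f y ↔ z ∈ B)

open scoped Classical in
/-- colourings with given classes -/
noncomputable def FbT {n : ℕ} (s : Prop) (E : Finset (Finset (Fin n))) (W : Finset (Fin n))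
    (k : ℕ) (Q : Finset (Finset (Fin n))) : Finset (Fin n → ℕ) :=
  (CC E W k).filter (fun f => (s → ∀ i ∈ Finset.Icc 1 k, ∃ v ∈ W, f v = i) ∧
    ∀ B ∈ Q, FbCl W f B)

lemma fb19_f {α : Type} {p : α → Prop} {i : DecidablePred p} {s : Finset α} {a : α} :
    a ∈ @Finset.filter α p i s ↔ a ∈ s ∧ p a := Finset.mem_filter

lemma fb19_mem {n : ℕ} (E : Finset (Finset (Fin n))) (W : Finset (Fin n)) (k : ℕ)
    (f : Fin n → ℕ) : f ∈ CC E W k ↔
      (∀ v ∈ W, 1 ≤ f v ∧ f v ≤ k) ∧ (∀ v, v ∉ W → f v = 0) ∧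
        (∀ e ∈ E, e ⊆ W → ∃ u ∈ e, ∃ v ∈ e, f u ≠ f v) := by
  classical
  unfold CC Prp
  rw [fb19_f, Fintype.mem_piFinset]
  constructor
  · rintro ⟨h1, h2⟩
    refine ⟨fun v hv => ?_, fun v hv => ?_, h2⟩
    · have := h1 v
      rw [if_pos hv] at this
      exact Finset.mem_Icc.1 this
    · have := h1 v
      rw [if_neg hv] at this
      exact Finset.mem_singleton.1 this
  · rintro ⟨h1, h2, h3⟩
    refine ⟨fun v => ?_, h3⟩
    by_cases hv : v ∈ W
    · rw [if_pos hv]; exact Finset.mem_Icc.2 (h1 v hv)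
    · rw [if_neg hv]; exact Finset.mem_singleton.2 (h2 v hv)

lemma fb19_memT {n : ℕ} (s : Prop) (E : Finset (Finset (Fin n))) (W : Finset (Fin n)) (k : ℕ)
    (Q : Finset (Finset (Fin n))) (f : Fin n → ℕ) : f ∈ FbT s E W k Q ↔
      ((∀ v ∈ W, 1 ≤ f v ∧ f v ≤ k) ∧ (∀ v, v ∉ W → f v = 0) ∧
        (∀ e ∈ E, e ⊆ W → ∃ u ∈ e, ∃ v ∈ e, f u ≠ f v)) ∧
      (s → ∀ i, 1 ≤ i → i ≤ k → ∃ v ∈ W, f v = i) ∧ ∀ B ∈ Q, FbCl W f B := by
  classical
  unfold FbT
  rw [fb19_f, fb19_mem]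
  simp only [Finset.mem_Icc, and_imp]

/-- `k + 1` becomes `c` -/
def fbS (k c x : ℕ) : ℕ := if x = k + 1 then c else x

/-- `c` becomes `k + 1` -/
def fbR (k c x : ℕ) : ℕ := if x = c then k + 1 else x

lemma fb19_S (k c x : ℕ) (h1 : 1 ≤ x) (h2 : x ≤ k + 1) (hc : x ≠ c) (hc1 : 1 ≤ c)
    (hc2 : c ≤ k + 1) : 1 ≤ fbS k c x ∧ fbS k c x ≤ k ∧ fbR k c (fbS k c x) = x := by
  unfold fbS fbR
  by_cases h : x = k + 1
  · simp only [h, if_true]
    refine ⟨hc1, ?_, trivial⟩
    omega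
  · simp only [h, if_false, if_neg hc]
    refine ⟨h1, ?_, trivial⟩
    omega

lemma fb19_R (k c x : ℕ) (h1 : 1 ≤ x) (h2 : x ≤ k) (hc1 : 1 ≤ c) (hc2 : c ≤ k + 1) :
    1 ≤ fbR k c x ∧ fbR k c x ≤ k + 1 ∧ fbR k c x ≠ c ∧ fbS k c (fbR k c x) = x := by
  unfold fbS fbR
  by_cases h : x = c
  · simp only [h, if_true]
    refine ⟨by omega, le_rfl, by omega, trivial⟩
  · simp only [h, if_false]
    refine ⟨h1, by omega, h, ?_⟩
    rw [if_neg (by omega)]

lemma fb19_step {n : ℕ} (s : Prop) (E : Finset (Finset (Fin n))) (W B0 : Finset (Fin n)) (k c : ℕ)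
    (Q : Finset (Finset (Fin n))) (b0 : Fin n) (hb0 : b0 ∈ B0) (hB0 : B0 ⊆ W)
    (hAl : ∀ e ∈ E, ¬ e ⊆ B0) (hQ : ∀ B ∈ Q, Disjoint B0 B ∧ B ⊆ W) (hc1 : 1 ≤ c)
    (hc2 : c ≤ k + 1) :
    ((FbT s E W (k + 1) (insert B0 Q)).filter (fun f => f b0 = c)).card =
      (FbT s E (W \ B0) k Q).card := by
  classical
  apply Finset.card_nbij'
    (i := fun f y => if y ∈ W \ B0 then fbS k c (f y) else 0)
    (j := fun g y => if y ∈ B0 then c else if y ∈ W then fbR k c (g y) else 0)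
  · intro f hf
    rw [Finset.mem_coe, fb19_f, fb19_memT] at hf
    obtain ⟨⟨⟨h1, h2, h3⟩, h4, h5⟩, h6⟩ := hf
    have hB : FbCl W f B0 := h5 B0 (Finset.mem_insert_self _ _)
    have hne : ∀ y ∈ W \ B0, f y ≠ c := by
      intro y hy h
      rw [Finset.mem_sdiff] at hy
      exact hy.2 ((hB b0 hb0 y hy.1).1 (h.trans h6.symm))
    have hin : ∀ y ∈ W \ B0, 1 ≤ fbS k c (f y) ∧ fbS k c (f y) ≤ k ∧
        fbR k c (fbS k c (f y)) = f y := by
      intro y hy
      have hy' := (Finset.mem_sdiff.1 hy).1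
      exact fb19_S k c (f y) (h1 y hy').1 (h1 y hy').2 (hne y hy) hc1 hc2
    have hinj : ∀ y ∈ W \ B0, ∀ z ∈ W \ B0, (fbS k c (f z) = fbS k c (f y) ↔ f z = f y) := by
      intro y hy z hz
      constructor
      · intro h
        rw [← (hin y hy).2.2, ← (hin z hz).2.2, h]
      · intro h; rw [h]
    rw [Finset.mem_coe, fb19_memT]
    refine ⟨⟨?_, ?_, ?_⟩, ?_, ?_⟩
    · intro v hv
      simp only [if_pos hv]
      exact ⟨(hin v hv).1, (hin v hv).2.1⟩
    · intro v hv
      simp only [if_neg hv]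
    · intro e he heW
      obtain ⟨u, hu, v, hv, huv⟩ := h3 e he (heW.trans Finset.sdiff_subset)
      refine ⟨u, hu, v, hv, ?_⟩
      simp only [if_pos (heW hu), if_pos (heW hv)]
      intro h
      exact huv ((hinj v (heW hv) u (heW hu)).1 h)
    · intro hs i hi1 hi2
      by_cases hic : i = c
      · obtain ⟨v, hv, hfv⟩ := h4 hs (k + 1) (by omega) le_rfl
        have hvB : v ∉ B0 := by
          intro h
          have := (hB b0 hb0 v hv).2 h
          omega
        have hv' : v ∈ W \ B0 := Finset.mem_sdiff.2 ⟨hv, hvB⟩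
        refine ⟨v, hv', ?_⟩
        simp only [if_pos hv', hfv, fbS, if_true]
        exact hic.symm
      · obtain ⟨v, hv, hfv⟩ := h4 hs i hi1 (by omega)
        have hvB : v ∉ B0 := by
          intro h
          have := (hB b0 hb0 v hv).2 h
          omega
        have hv' : v ∈ W \ B0 := Finset.mem_sdiff.2 ⟨hv, hvB⟩
        refine ⟨v, hv', ?_⟩
        simp only [if_pos hv', hfv, fbS]
        rw [if_neg (by omega)]
    · intro B hBQ y hy z hz
      have hyW : y ∈ W \ B0 := Finset.mem_sdiff.2 ⟨(hQ B hBQ).2 hy, fun h =>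
        (Finset.disjoint_left.1 (hQ B hBQ).1) h hy⟩
      simp only [if_pos hz, if_pos hyW]
      rw [hinj y hyW z hz]
      exact h5 B (Finset.mem_insert_of_mem hBQ) y hy z (Finset.mem_sdiff.1 hz).1
  · intro g hg
    rw [Finset.mem_coe, fb19_memT] at hg
    obtain ⟨⟨h1, h2, h3⟩, h4, h5⟩ := hg
    have hin : ∀ y ∈ W \ B0, 1 ≤ fbR k c (g y) ∧ fbR k c (g y) ≤ k + 1 ∧ fbR k c (g y) ≠ c ∧
        fbS k c (fbR k c (g y)) = g y := by
      intro y hy
      exact fb19_R k c (g y) (h1 y hy).1 (h1 y hy).2 hc1 hc2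
    have hinj : ∀ y ∈ W \ B0, ∀ z ∈ W \ B0, (fbR k c (g z) = fbR k c (g y) ↔ g z = g y) := by
      intro y hy z hz
      constructor
      · intro h
        rw [← (hin y hy).2.2.2, ← (hin z hz).2.2.2, h]
      · intro h; rw [h]
    have ev1 : ∀ y ∈ B0, (if y ∈ B0 then c else if y ∈ W then fbR k c (g y) else 0) = c := by
      intro y hy; rw [if_pos hy]
    have ev2 : ∀ y ∈ W \ B0,
        (if y ∈ B0 then c else if y ∈ W then fbR k c (g y) else 0) = fbR k c (g y) := by
      intro y hy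
      rw [Finset.mem_sdiff] at hy
      rw [if_neg hy.2, if_pos hy.1]
    rw [Finset.mem_coe, fb19_f, fb19_memT]
    refine ⟨⟨⟨?_, ?_, ?_⟩, ?_, ?_⟩, ?_⟩
    · intro v hv
      by_cases hvB : v ∈ B0
      · simp only [if_pos hvB]; exact ⟨hc1, hc2⟩
      · have hv' : v ∈ W \ B0 := Finset.mem_sdiff.2 ⟨hv, hvB⟩
        simp only [if_neg hvB, if_pos hv]
        exact ⟨(hin v hv').1, (hin v hv').2.1⟩
    · intro v hv
      have hvB : v ∉ B0 := fun h => hv (hB0 h)
      simp only [if_neg hvB, if_neg hv]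
    · intro e he heW
      obtain ⟨u, hu, huB⟩ := Finset.not_subset.1 (hAl e he)
      have huW : u ∈ W \ B0 := Finset.mem_sdiff.2 ⟨heW hu, huB⟩
      by_cases hex : ∃ v ∈ e, v ∈ B0
      · obtain ⟨v, hv, hvB⟩ := hex
        refine ⟨u, hu, v, hv, ?_⟩
        show (if u ∈ B0 then c else if u ∈ W then fbR k c (g u) else 0) ≠
          (if v ∈ B0 then c else if v ∈ W then fbR k c (g v) else 0)
        rw [ev2 u huW, ev1 v hvB]
        exact (hin u huW).2.2.1
      · have heW' : e ⊆ W \ B0 := by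
          intro v hv
          exact Finset.mem_sdiff.2 ⟨heW hv, fun h => hex ⟨v, hv, h⟩⟩
        obtain ⟨u', hu', v', hv', huv⟩ := h3 e he heW'
        refine ⟨u', hu', v', hv', ?_⟩
        show (if u' ∈ B0 then c else if u' ∈ W then fbR k c (g u') else 0) ≠
          (if v' ∈ B0 then c else if v' ∈ W then fbR k c (g v') else 0)
        rw [ev2 u' (heW' hu'), ev2 v' (heW' hv')]
        intro h
        exact huv ((hinj v' (heW' hv') u' (heW' hu')).1 h)
    · intro hs i hi1 hi2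
      by_cases hic : i = c
      · refine ⟨b0, hB0 hb0, ?_⟩
        show (if b0 ∈ B0 then c else if b0 ∈ W then fbR k c (g b0) else 0) = i
        rw [ev1 b0 hb0, hic]
      · by_cases hik : i = k + 1
        · obtain ⟨v, hv, hgv⟩ := h4 hs c hc1 (by omega)
          refine ⟨v, (Finset.mem_sdiff.1 hv).1, ?_⟩
          show (if v ∈ B0 then c else if v ∈ W then fbR k c (g v) else 0) = i
          rw [ev2 v hv, hgv, fbR, if_pos rfl, hik]
        · obtain ⟨v, hv, hgv⟩ := h4 hs i hi1 (by omega)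
          refine ⟨v, (Finset.mem_sdiff.1 hv).1, ?_⟩
          show (if v ∈ B0 then c else if v ∈ W then fbR k c (g v) else 0) = i
          rw [ev2 v hv, hgv, fbR, if_neg hic]
    · intro B hBQ y hy z hz
      show (if z ∈ B0 then c else if z ∈ W then fbR k c (g z) else 0) =
        (if y ∈ B0 then c else if y ∈ W then fbR k c (g y) else 0) ↔ z ∈ B
      rcases Finset.mem_insert.1 hBQ with rfl | hBQ
      · rw [ev1 y hy]
        by_cases hzB : z ∈ B
        · rw [ev1 z hzB]; exact ⟨fun _ => hzB, fun _ => rfl⟩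
        · have hz' : z ∈ W \ B := Finset.mem_sdiff.2 ⟨hz, hzB⟩
          rw [ev2 z hz']
          exact ⟨fun h => absurd h (hin z hz').2.2.1, fun h => absurd h hzB⟩
      · have hyW : y ∈ W \ B0 := Finset.mem_sdiff.2 ⟨(hQ B hBQ).2 hy, fun h =>
          (Finset.disjoint_left.1 (hQ B hBQ).1) h hy⟩
        rw [ev2 y hyW]
        by_cases hzB : z ∈ B0
        · rw [ev1 z hzB]
          exact ⟨fun h => absurd h.symm (hin y hyW).2.2.1, fun h => absurd h
            ((Finset.disjoint_left.1 (hQ B hBQ).1) hzB)⟩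
        · have hz' : z ∈ W \ B0 := Finset.mem_sdiff.2 ⟨hz, hzB⟩
          rw [ev2 z hz', hinj y hyW z hz']
          exact h5 B hBQ y hy z hz'
    · show (if b0 ∈ B0 then c else if b0 ∈ W then fbR k c (g b0) else 0) = c
      exact ev1 b0 hb0
  · intro f hf
    rw [Finset.mem_coe, fb19_f, fb19_memT] at hf
    obtain ⟨⟨⟨h1, h2, h3⟩, h4, h5⟩, h6⟩ := hf
    have hB : FbCl W f B0 := h5 B0 (Finset.mem_insert_self _ _)
    funext y
    show (if y ∈ B0 then c else if y ∈ W then fbR k c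
      (if y ∈ W \ B0 then fbS k c (f y) else 0) else 0) = f y
    by_cases hyB : y ∈ B0
    · rw [if_pos hyB, (hB b0 hb0 y (hB0 hyB)).2 hyB, h6]
    · rw [if_neg hyB]
      by_cases hyW : y ∈ W
      · have hy : y ∈ W \ B0 := Finset.mem_sdiff.2 ⟨hyW, hyB⟩
        have hne : f y ≠ c := fun h => hyB ((hB b0 hb0 y hyW).1 (h.trans h6.symm))
        rw [if_pos hyW, if_pos hy]
        exact (fb19_S k c (f y) (h1 y hyW).1 (h1 y hyW).2 hne hc1 hc2).2.2
      · rw [if_neg hyW, h2 y hyW]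
  · intro g hg
    rw [Finset.mem_coe, fb19_memT] at hg
    obtain ⟨⟨h1, h2, h3⟩, h4, h5⟩ := hg
    funext y
    show (if y ∈ W \ B0 then fbS k c (if y ∈ B0 then c else if y ∈ W then fbR k c (g y) else 0)
      else 0) = g y
    by_cases hy : y ∈ W \ B0
    · have hy' := Finset.mem_sdiff.1 hy
      rw [if_pos hy, if_neg hy'.2, if_pos hy'.1]
      exact (fb19_R k c (g y) (h1 y hy).1 (h1 y hy).2 hc1 hc2).2.2.2
    · rw [if_neg hy, h2 y hy]

lemma fb19_main {n : ℕ} (s : Prop) (E : Finset (Finset (Fin n))) (Q : Finset (Finset (Fin n))) :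
    ∀ (W : Finset (Fin n)) (k : ℕ), (∀ B ∈ Q, B.Nonempty ∧ (∀ e ∈ E, ¬ e ⊆ B) ∧ B ⊆ W) →
    (∀ B ∈ Q, ∀ B' ∈ Q, B ≠ B' → Disjoint B B') →
    (FbT s E W k Q).card = k.descFactorial Q.card * (FbT s E (W \ un Q) (k - Q.card) ∅).card := by
  classical
  induction Q using Finset.induction_on with
  | empty =>
    intro W k _ _
    simp [un]
  | insert B0 Q hB0 ih =>
    intro W k h1 h2
    obtain ⟨⟨b0, hb0⟩, hAl, hBW⟩ := h1 B0 (Finset.mem_insert_self _ _)
    rw [Finset.card_insert_of_notMem hB0]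
    cases k with
    | zero =>
      rw [Nat.zero_descFactorial_succ, Nat.zero_mul, Finset.card_eq_zero,
        Finset.eq_empty_iff_forall_notMem]
      intro f hf
      rw [fb19_memT] at hf
      have := hf.1.1 b0 (hBW hb0)
      omega
    | succ k =>
      have hfib : (FbT s E W (k + 1) (insert B0 Q)).card =
          ∑ c ∈ Finset.Icc 1 (k + 1),
            ((FbT s E W (k + 1) (insert B0 Q)).filter (fun f => f b0 = c)).card := by
        apply Finset.card_eq_sum_card_fiberwise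
        intro f hf
        rw [Finset.mem_coe, fb19_memT] at hf
        exact Finset.mem_coe.2 (Finset.mem_Icc.2 (hf.1.1 b0 (hBW hb0)))
      have hQd : ∀ B ∈ Q, Disjoint B0 B ∧ B ⊆ W := by
        intro B hB
        refine ⟨h2 B0 (Finset.mem_insert_self _ _) B (Finset.mem_insert_of_mem hB) ?_,
          (h1 B (Finset.mem_insert_of_mem hB)).2.2⟩
        rintro rfl
        exact hB0 hB
      have hst : ∀ c ∈ Finset.Icc 1 (k + 1),
          ((FbT s E W (k + 1) (insert B0 Q)).filter (fun f => f b0 = c)).card =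
            (FbT s E (W \ B0) k Q).card := by
        intro c hc
        rw [Finset.mem_Icc] at hc
        exact fb19_step s E W B0 k c Q b0 hb0 hBW hAl hQd hc.1 hc.2
      rw [hfib, Finset.sum_congr rfl hst, Finset.sum_const, Nat.card_Icc, smul_eq_mul,
        ih (W \ B0) k ?_ ?_, Nat.succ_descFactorial_succ, Nat.add_sub_cancel, Nat.add_sub_add_right,
        Nat.mul_assoc]
      · have : (W \ B0) \ un Q = W \ un (insert B0 Q) := by
          unfold un
          ext y
          simp only [Finset.mem_sdiff, Finset.mem_biUnion, Finset.mem_insert, id]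
          constructor
          · rintro ⟨⟨h1, h2⟩, h3⟩
            refine ⟨h1, ?_⟩
            rintro ⟨B, rfl | hB, hy⟩
            · exact h2 hy
            · exact h3 ⟨B, hB, hy⟩
          · rintro ⟨h1, h2⟩
            exact ⟨⟨h1, fun h => h2 ⟨B0, Or.inl rfl, h⟩⟩, fun ⟨B, hB, hy⟩ =>
              h2 ⟨B, Or.inr hB, hy⟩⟩
        rw [this]
      · intro B hB
        obtain ⟨g1, g2, g3⟩ := h1 B (Finset.mem_insert_of_mem hB)
        refine ⟨g1, g2, ?_⟩
        intro y hy
        exact Finset.mem_sdiff.2 ⟨g3 hy, fun h => (Finset.disjoint_left.1 (hQd B hB).1) h hy⟩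
      · intro B hB B' hB' hne
        exact h2 B (Finset.mem_insert_of_mem hB) B' (Finset.mem_insert_of_mem hB') hne

lemma fb19_cls {n : ℕ} (E : Finset (Finset (Fin n))) (W0 : Finset (Fin n))
    (Q : Finset (Finset (Fin n))) (hQ : Q ∈ QQ E W0) (f : Fin n → ℕ) :
    cls W0 f = Q ↔ ∀ B ∈ Q, FbCl univ f B := by
  classical
  unfold QQ at hQ
  rw [fb19_f] at hQ
  obtain ⟨_, h1, h2, h3⟩ := hQ
  unfold cls
  constructor
  · intro h B hB y hy z _
    rw [← h, Finset.mem_image] at hB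
    obtain ⟨u, _, rfl⟩ := hB
    rw [fb19_f] at hy
    rw [hy.2, fb19_f]
    exact ⟨fun h => ⟨Finset.mem_univ _, h⟩, fun h => h.2⟩
  · intro h
    have key : ∀ u : Fin n, ∀ B ∈ Q, u ∈ B → univ.filter (fun y => f y = f u) = B := by
      intro u B hB hu
      ext z
      rw [fb19_f]
      exact ⟨fun g => (h B hB u hu z (Finset.mem_univ _)).1 g.2,
        fun g => ⟨Finset.mem_univ _, (h B hB u hu z (Finset.mem_univ _)).2 g⟩⟩
    ext B
    rw [Finset.mem_image]
    constructor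
    · rintro ⟨u, hu, rfl⟩
      have := h3 hu
      unfold un at this
      rw [Finset.mem_biUnion] at this
      obtain ⟨B, hB, huB⟩ := this
      rw [key u B hB huB]
      exact hB
    · intro hB
      obtain ⟨u, hu⟩ := (h1 B hB).1
      rw [Finset.mem_inter] at hu
      exact ⟨u, hu.2, key u B hB hu.1⟩

lemma fb19_QQ {n : ℕ} (E : Finset (Finset (Fin n))) (W0 : Finset (Fin n))
    (Q : Finset (Finset (Fin n))) (hQ : Q ∈ QQ E W0) :
    (∀ B ∈ Q, B.Nonempty ∧ (∀ e ∈ E, ¬ e ⊆ B) ∧ B ⊆ univ) ∧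
    (∀ B ∈ Q, ∀ B' ∈ Q, B ≠ B' → Disjoint B B') := by
  classical
  unfold QQ at hQ
  rw [fb19_f] at hQ
  obtain ⟨_, h1, h2, _⟩ := hQ
  refine ⟨fun B hB => ⟨?_, ?_, Finset.subset_univ _⟩, h2⟩
  · obtain ⟨u, hu⟩ := (h1 B hB).1
    exact ⟨u, (Finset.mem_inter.1 hu).1⟩
  · exact (h1 B hB).2

theorem st_FBC19 : ST_FBC := by
  classical
  intro n k E W0 Q _ hQ
  obtain ⟨g1, g2⟩ := fb19_QQ E W0 Q hQ
  have h := fb19_main False E Q univ k g1 g2
  have e1 : (CC E univ k).filter (fun f => cls W0 f = Q) = FbT False E univ k Q := by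
    ext f
    unfold FbT
    rw [fb19_f, fb19_f, fb19_cls E W0 Q hQ f]
    simp
  have e2 : FbT False E (univ \ un Q) (k - Q.card) ∅ = CC E (univ \ un Q) (k - Q.card) := by
    ext f
    unfold FbT
    rw [fb19_f]
    simp
  rw [e2] at h
  rw [e1, h]
  rfl

theorem st_FBS19 : ST_FBS := by
  classical
  intro n k E W0 Q _ hQ
  obtain ⟨g1, g2⟩ := fb19_QQ E W0 Q hQ
  have h := fb19_main True E Q univ k g1 g2
  have e1 : (SS E univ k).filter (fun f => cls W0 f = Q) = FbT True E univ k Q := by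
    ext f
    unfold FbT SS
    rw [fb19_f, fb19_f, fb19_f, fb19_cls E W0 Q hQ f]
    simp only [true_imp_iff, and_assoc]
  have e2 : FbT True E (univ \ un Q) (k - Q.card) ∅ = SS E (univ \ un Q) (k - Q.card) := by
    ext f
    unfold FbT SS
    rw [fb19_f, fb19_f]
    simp
  rw [e2] at h
  rw [e1, h]
  rfl

end Pool.Agent.Helper5.FV
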