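import Pool.Agent.Helper43.FV.Spec

/-!
# Module PROJ: finiteness for groups acting projectively on a generating subspace
-/

namespace Pool.Agent.Helper43.FV

open Pool.Agent.Helper43.RS
open scoped ComplexConjugate
open MvPolynomial

/-! ## Zariski closure of a subgroup -/

theorem PROJ_subst {N : ℕ} {τ : Type} (F : GL (Fin N) ℂ → τ → ℂ)
    (hF : ∀ t, ∃ q : MvPolynomial ((Fin N × Fin N) ⊕ (Fin N × Fin N)) ℂ,
      ∀ x, F x t = eval (entries x) q) (p : MvPolynomial τ ℂ) :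
    ∃ q : MvPolynomial ((Fin N × Fin N) ⊕ (Fin N × Fin N)) ℂ,
      ∀ x, eval (F x) p = eval (entries x) q := by
  induction p using MvPolynomial.induction_on with
  | C a => exact ⟨C a, fun x => by rw [eval_C, eval_C]⟩
  | add p q hp hq =>
    obtain ⟨P, hP⟩ := hp
    obtain ⟨Q, hQ⟩ := hq
    exact ⟨P + Q, fun x => by rw [map_add, map_add, hP, hQ]⟩
  | mul_X p t hp =>
    obtain ⟨P, hP⟩ := hp
    obtain ⟨Q, hQ⟩ := hF t
    exact ⟨P * Q, fun x => by rw [map_mul, map_mul, hP, eval_X, hQ]⟩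

/-- the Zariski closure of a subgroup -/
def PROJ_cl {N : ℕ} (Γ : Subgroup (GL (Fin N) ℂ)) : Subgroup (GL (Fin N) ℂ) where
  carrier := {w | ∀ p : MvPolynomial ((Fin N × Fin N) ⊕ (Fin N × Fin N)) ℂ,
    (∀ γ ∈ Γ, eval (entries γ) p = 0) → eval (entries w) p = 0}
  one_mem' := fun p hp => hp 1 Γ.one_mem
  mul_mem' := by
    intro w w' hw hw' p hp
    obtain ⟨q, hq⟩ := PROJ_subst (fun x => entries (x * w')) (by
      rintro (⟨i, j⟩ | ⟨i, j⟩)
      · refine ⟨∑ k, X (Sum.inl (i, k)) * C ((w' : Matrix (Fin N) (Fin N) ℂ) k j), fun x => ?_⟩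
        simp [entries, Matrix.mul_apply]
      · refine ⟨∑ k, C (((w'⁻¹ : GL (Fin N) ℂ) : Matrix (Fin N) (Fin N) ℂ) i k) *
          X (Sum.inr (k, j)), fun x => ?_⟩
        simp only [entries, mul_inv_rev, Units.val_mul, Sum.elim_inr, Matrix.mul_apply, map_sum,
          map_mul, eval_C, eval_X]) p
    rw [hq]
    refine hw q fun γ hγ => ?_
    rw [← hq]
    obtain ⟨q', hq'⟩ := PROJ_subst (fun x => entries (γ * x)) (by
      rintro (⟨i, j⟩ | ⟨i, j⟩)
      · refine ⟨∑ k, C ((γ : Matrix (Fin N) (Fin N) ℂ) i k) * X (Sum.inl (k, j)), fun x => ?_⟩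
        simp [entries, Matrix.mul_apply]
      · refine ⟨∑ k, X (Sum.inr (i, k)) *
          C (((γ⁻¹ : GL (Fin N) ℂ) : Matrix (Fin N) (Fin N) ℂ) k j), fun x => ?_⟩
        simp only [entries, mul_inv_rev, Units.val_mul, Sum.elim_inr, Matrix.mul_apply, map_sum,
          map_mul, eval_C, eval_X]) p
    rw [hq']
    refine hw' q' fun δ hδ => ?_
    rw [← hq']
    exact hp _ (Γ.mul_mem hγ hδ)
  inv_mem' := by
    intro w hw p hp
    obtain ⟨q, hq⟩ := PROJ_subst (fun x => entries x⁻¹) (by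
      rintro (⟨i, j⟩ | ⟨i, j⟩)
      · refine ⟨X (Sum.inr (i, j)), fun x => ?_⟩
        simp only [entries, Sum.elim_inl, Sum.elim_inr, eval_X]
      · refine ⟨X (Sum.inl (i, j)), fun x => ?_⟩
        simp only [entries, Sum.elim_inl, Sum.elim_inr, eval_X, inv_inv]) p
    rw [hq]
    refine hw q fun γ hγ => ?_
    rw [← hq]
    exact hp _ (Γ.inv_mem hγ)

theorem PROJ_le_cl {N : ℕ} (Γ : Subgroup (GL (Fin N) ℂ)) : Γ ≤ PROJ_cl Γ :=
  fun γ hγ _ hp => hp γ hγ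

theorem PROJ_cl_closed {N : ℕ} (Γ : Subgroup (GL (Fin N) ℂ)) :
    ZClosed (PROJ_cl Γ : Set (GL (Fin N) ℂ)) := by
  refine ⟨{p | ∀ γ ∈ Γ, eval (entries γ) p = 0}, ?_⟩
  ext w
  exact Iff.rfl

/-! ## Projective relations -/

section Rel

variable {K : Type} [Field K] [Algebra ℂ K] {n : ℕ} {v : Fin n → K}

theorem PROJ_rel_one : LinRel v (1 : K ≃ₐ[ℂ] K) 1 := by
  refine ⟨1, one_ne_zero, fun i => ?_⟩
  rw [AlgEquiv.one_apply, one_mul, Finset.sum_eq_single i]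
  · simp
  · intro j _ hj
    simp [Matrix.one_apply_ne hj]
  · intro h
    exact absurd (Finset.mem_univ _) h

theorem PROJ_sum_mul (M N : Matrix (Fin n) (Fin n) ℂ) (w : Fin n → K) (i : Fin n) :
    ∑ j, N j i • ∑ k, M k j • w k = ∑ k, (M * N) k i • w k := by
  simp only [Finset.smul_sum, smul_smul]
  rw [Finset.sum_comm]
  refine Finset.sum_congr rfl fun k _ => ?_
  rw [← Finset.sum_smul, Matrix.mul_apply]
  congr 1
  exact Finset.sum_congr rfl fun j _ => mul_comm _ _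

theorem PROJ_rel_mul {a b : K ≃ₐ[ℂ] K} {M N : GL (Fin n) ℂ} (h : LinRel v a M)
    (h' : LinRel v b N) : LinRel v (a * b : K ≃ₐ[ℂ] K) (M * N) := by
  obtain ⟨f, hf, h⟩ := h
  obtain ⟨f', hf', h'⟩ := h'
  refine ⟨a f' * f, mul_ne_zero ((map_ne_zero a).2 hf') hf, fun i => ?_⟩
  rw [AlgEquiv.mul_apply, h', map_mul, map_sum, mul_assoc]
  congr 1
  rw [Units.val_mul, ← PROJ_sum_mul, Finset.mul_sum]
  refine Finset.sum_congr rfl fun j _ => ?_
  rw [map_smul, h j, mul_smul_comm]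

theorem PROJ_rel_inv {a : K ≃ₐ[ℂ] K} {M : GL (Fin n) ℂ} (h : LinRel v a M) :
    LinRel v (a⁻¹ : K ≃ₐ[ℂ] K) M⁻¹ := by
  obtain ⟨f, hf, h⟩ := h
  refine ⟨a.symm f⁻¹, (map_ne_zero a.symm).2 (inv_ne_zero hf), fun i => ?_⟩
  apply a.injective
  rw [AlgEquiv.aut_inv, AlgEquiv.apply_symm_apply, map_mul, AlgEquiv.apply_symm_apply, map_sum]
  have h1 : ∑ j, a (((M⁻¹ : GL (Fin n) ℂ) : Matrix (Fin n) (Fin n) ℂ) j i • v j) =
      f * ∑ j, ((M⁻¹ : GL (Fin n) ℂ) : Matrix (Fin n) (Fin n) ℂ) j i •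
        ∑ k, (M : Matrix (Fin n) (Fin n) ℂ) k j • v k := by
    rw [Finset.mul_sum]
    refine Finset.sum_congr rfl fun j _ => ?_
    rw [map_smul, h j, mul_smul_comm]
  rw [h1, PROJ_sum_mul, ← Units.val_mul, mul_inv_cancel, ← mul_assoc, inv_mul_cancel₀ hf, one_mul]
  rw [Finset.sum_eq_single i]
  · simp
  · intro j _ hj
    simp [Matrix.one_apply_ne hj]
  · intro h
    exact absurd (Finset.mem_univ _) h

theorem PROJ_ext {a b : K ≃ₐ[ℂ] K} {s : Set K} (hs : FGen s) (h : ∀ x ∈ s, a x = b x) : a = b := by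
  have h1 : ∀ x ∈ IntermediateField.adjoin ℂ s, a x = b x := by
    intro x hx
    induction hx using IntermediateField.adjoin_induction with
    | mem x hx => exact h x hx
    | algebraMap c => rw [AlgEquiv.commutes, AlgEquiv.commutes]
    | add x y _ _ hx hy => rw [map_add, map_add, hx, hy]
    | inv x _ hx => rw [map_inv₀, map_inv₀, hx]
    | mul x y _ _ hx hy => rw [map_mul, map_mul, hx, hy]
  ext x
  exact h1 x (by rw [hs]; exact IntermediateField.mem_top)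

theorem PROJ_rel_uniq (hgen : RatGen v) {a b : K ≃ₐ[ℂ] K} {M : GL (Fin n) ℂ}
    (h : LinRel v a M) (h' : LinRel v b M) : a = b := by
  obtain ⟨f, hf, h⟩ := h
  obtain ⟨f', hf', h'⟩ := h'
  refine PROJ_ext hgen ?_
  rintro x ⟨i, j, rfl⟩
  rw [map_div₀, map_div₀, h, h, h', h', mul_div_mul_left _ _ hf, mul_div_mul_left _ _ hf']

theorem PROJ_rel_conj {μ : K ≃+* K} (hc : ∀ c : ℂ, μ (algebraMap ℂ K c) = algebraMap ℂ K (conj c))
    (hi : ∀ r, μ (μ r) = r) {a : K → K} {M : GL (Fin n) ℂ} (h : LinRel v a M) :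
    LinRel (fun i => μ (v i)) (fun r => μ (a (μ r))) (cj M) := by
  obtain ⟨f, hf, h⟩ := h
  refine ⟨μ f, (map_ne_zero μ).2 hf, fun i => ?_⟩
  change μ (a (μ (μ (v i)))) = _
  rw [hi, h, map_mul, map_sum]
  congr 1
  refine Finset.sum_congr rfl fun j _ => ?_
  rw [Algebra.smul_def, map_mul, hc, Algebra.smul_def]
  rfl

end Rel

/-! ## Block matrices -/

/-- size of the block matrices -/
abbrev PROJ_N (n : ℕ) : ℕ := Fintype.card (Fin n × Bool)

/-- numbering of the indices -/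
noncomputable def PROJ_e (n : ℕ) : Fin n × Bool ≃ Fin (PROJ_N n) := Fintype.equivFin _

/-- renumbering of matrices -/
noncomputable def PROJ_E (n : ℕ) :
    GL (Fin n × Bool) ℂ ≃* GL (Fin (PROJ_N n)) ℂ :=
  Units.mapEquiv (Matrix.reindexAlgEquiv ℂ ℂ (PROJ_e n)).toMulEquiv

theorem PROJ_E_apply {n : ℕ} (g : GL (Fin n × Bool) ℂ) (i j : Fin n × Bool) :
    (PROJ_E n g : Matrix (Fin (PROJ_N n)) (Fin (PROJ_N n)) ℂ) (PROJ_e n i) (PROJ_e n j) =
      (g : Matrix (Fin n × Bool) (Fin n × Bool) ℂ) i j := by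
  change (Matrix.reindex (PROJ_e n) (PROJ_e n) (g : Matrix (Fin n × Bool) (Fin n × Bool) ℂ))
    (PROJ_e n i) (PROJ_e n j) = _
  rw [Matrix.reindex_apply, Matrix.submatrix_apply, Equiv.symm_apply_apply, Equiv.symm_apply_apply]

/-- block diagonal matrices -/
noncomputable def PROJ_blk (n : ℕ) : (Bool → GL (Fin n) ℂ) →* GL (Fin (PROJ_N n)) ℂ :=
  (PROJ_E n).toMonoidHom.comp
    ((Units.map (Matrix.blockDiagonalRingHom (Fin n) Bool ℂ).toMonoidHom).comp
      (MulEquiv.piUnits (M := fun _ : Bool => Matrix (Fin n) (Fin n) ℂ)).symm.toMonoidHom)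

theorem PROJ_blk_apply {n : ℕ} (M : Bool → GL (Fin n) ℂ) (i j : Fin n) (s t : Bool) :
    (PROJ_blk n M : Matrix (Fin (PROJ_N n)) (Fin (PROJ_N n)) ℂ) (PROJ_e n (i, s))
      (PROJ_e n (j, t)) = if s = t then (M s : Matrix (Fin n) (Fin n) ℂ) i j else 0 :=
  PROJ_E_apply _ _ _

theorem PROJ_blk_inj {n : ℕ} {M M' : Bool → GL (Fin n) ℂ} (h : PROJ_blk n M = PROJ_blk n M') :
    M = M' := by
  funext s
  ext i j
  have h1 := PROJ_blk_apply M i j s s
  rw [if_pos rfl, h, PROJ_blk_apply, if_pos rfl] at h1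
  exact h1.symm

theorem PROJ_GL_ext {n : ℕ} {g h : GL (Fin (PROJ_N n)) ℂ}
    (H : ∀ i j s t, (g : Matrix (Fin (PROJ_N n)) (Fin (PROJ_N n)) ℂ) (PROJ_e n (i, s))
      (PROJ_e n (j, t)) = (h : Matrix (Fin (PROJ_N n)) (Fin (PROJ_N n)) ℂ) (PROJ_e n (i, s))
      (PROJ_e n (j, t))) : g = h := by
  ext a b
  obtain ⟨⟨i, s⟩, rfl⟩ := (PROJ_e n).surjective a
  obtain ⟨⟨j, t⟩, rfl⟩ := (PROJ_e n).surjective b
  exact H i j s t

theorem PROJ_cj_apply {n : ℕ} (g : GL (Fin n) ℂ) (i j : Fin n) :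
    ((cj g : GL (Fin n) ℂ) : Matrix (Fin n) (Fin n) ℂ) i j =
      conj ((g : Matrix (Fin n) (Fin n) ℂ) i j) := rfl

theorem PROJ_cj_cj {n : ℕ} (g : GL (Fin n) ℂ) : cj (cj g) = g := by
  ext i j
  rw [PROJ_cj_apply, PROJ_cj_apply, Complex.conj_conj]

theorem PROJ_cj_blk {n : ℕ} (M : Bool → GL (Fin n) ℂ) :
    cj (PROJ_blk n M) = PROJ_blk n (fun s => cj (M s)) := by
  apply PROJ_GL_ext
  intro i j s t
  rw [PROJ_cj_apply, PROJ_blk_apply, PROJ_blk_apply, PROJ_cj_apply]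
  split_ifs
  · rfl
  · rw [map_zero]

/-- sums over the indices of block matrices -/
theorem PROJ_mul_apply {n : ℕ} (g h : GL (Fin (PROJ_N n)) ℂ) (a b : Fin (PROJ_N n)) :
    ((g * h : GL (Fin (PROJ_N n)) ℂ) : Matrix (Fin (PROJ_N n)) (Fin (PROJ_N n)) ℂ) a b =
      ∑ k : Fin n, ∑ r : Bool,
        (g : Matrix (Fin (PROJ_N n)) (Fin (PROJ_N n)) ℂ) a (PROJ_e n (k, r)) *
        (h : Matrix (Fin (PROJ_N n)) (Fin (PROJ_N n)) ℂ) (PROJ_e n (k, r)) b := by
  rw [Units.val_mul, Matrix.mul_apply, ← (PROJ_e n).sum_comp, Fintype.sum_prod_type]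

/-- `2 × 2` matrices -/
def PROJ_c : Matrix Bool Bool ℂ := fun s t =>
  match s, t with
  | true, true => 1
  | true, false => 1
  | false, true => Complex.I
  | false, false => -Complex.I

/-- the inverse -/
noncomputable def PROJ_c' : Matrix Bool Bool ℂ := fun s t =>
  match s, t with
  | true, true => 1 / 2
  | true, false => -Complex.I / 2
  | false, true => 1 / 2
  | false, false => Complex.I / 2

theorem PROJ_c_mul : PROJ_c * PROJ_c' = 1 := by
  ext s t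
  rw [Matrix.mul_apply, Fintype.sum_bool]
  have h := Complex.I_mul_I
  cases s <;> cases t <;> simp [PROJ_c, PROJ_c']
  all_goals first | ring1 | linear_combination (-1 : ℂ) * h

theorem PROJ_c_mul' : PROJ_c' * PROJ_c = 1 := mul_eq_one_comm.1 PROJ_c_mul

/-- exchange matrix -/
def PROJ_j : Matrix Bool Bool ℂ := fun s t => if s = t then 0 else 1

theorem PROJ_j_mul : PROJ_j * PROJ_j = 1 := by
  ext s t
  rw [Matrix.mul_apply, Fintype.sum_bool]
  cases s <;> cases t <;> simp [PROJ_j]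

open scoped Kronecker in
/-- the twisting matrix -/
noncomputable def PROJ_C (n : ℕ) : GL (Fin (PROJ_N n)) ℂ :=
  PROJ_E n ⟨(1 : Matrix (Fin n) (Fin n) ℂ) ⊗ₖ PROJ_c, (1 : Matrix (Fin n) (Fin n) ℂ) ⊗ₖ PROJ_c',
    by rw [← Matrix.mul_kronecker_mul, PROJ_c_mul, one_mul, Matrix.one_kronecker_one],
    by rw [← Matrix.mul_kronecker_mul, PROJ_c_mul', one_mul, Matrix.one_kronecker_one]⟩

theorem PROJ_C_apply {n : ℕ} (i j : Fin n) (s t : Bool) :
    (PROJ_C n : Matrix (Fin (PROJ_N n)) (Fin (PROJ_N n)) ℂ) (PROJ_e n (i, s))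
      (PROJ_e n (j, t)) = (if i = j then 1 else 0) * PROJ_c s t := by
  refine (PROJ_E_apply _ _ _).trans ?_
  change (1 : Matrix (Fin n) (Fin n) ℂ) i j * PROJ_c s t = _
  rw [Matrix.one_apply]

open scoped Kronecker in
/-- the exchange matrix -/
noncomputable def PROJ_J (n : ℕ) : GL (Fin (PROJ_N n)) ℂ :=
  PROJ_E n ⟨(1 : Matrix (Fin n) (Fin n) ℂ) ⊗ₖ PROJ_j, (1 : Matrix (Fin n) (Fin n) ℂ) ⊗ₖ PROJ_j,
    by rw [← Matrix.mul_kronecker_mul, PROJ_j_mul, one_mul, Matrix.one_kronecker_one],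
    by rw [← Matrix.mul_kronecker_mul, PROJ_j_mul, one_mul, Matrix.one_kronecker_one]⟩

theorem PROJ_J_apply {n : ℕ} (i j : Fin n) (s t : Bool) :
    (PROJ_J n : Matrix (Fin (PROJ_N n)) (Fin (PROJ_N n)) ℂ) (PROJ_e n (i, s))
      (PROJ_e n (j, t)) = (if i = j then 1 else 0) * PROJ_j s t := by
  refine (PROJ_E_apply _ _ _).trans ?_
  change (1 : Matrix (Fin n) (Fin n) ℂ) i j * PROJ_j s t = _
  rw [Matrix.one_apply]

theorem PROJ_cj_C (n : ℕ) : cj (PROJ_C n) = PROJ_C n * PROJ_J n := by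
  apply PROJ_GL_ext
  intro i j s t
  rw [PROJ_cj_apply, PROJ_C_apply, PROJ_mul_apply, Finset.sum_eq_single i]
  · simp only [PROJ_C_apply, PROJ_J_apply, if_true, one_mul, Fintype.sum_bool]
    by_cases hij : i = j
    · subst hij
      cases s <;> cases t <;> simp [PROJ_c, PROJ_j]
    · simp [hij]
  · intro k _ hk
    simp [PROJ_C_apply, hk.symm]
  · intro h
    exact absurd (Finset.mem_univ _) h

theorem PROJ_J_blk {n : ℕ} (M : Bool → GL (Fin n) ℂ) :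
    PROJ_J n * PROJ_blk n M = PROJ_blk n (fun s => M (!s)) * PROJ_J n := by
  apply PROJ_GL_ext
  intro i j s t
  rw [PROJ_mul_apply, PROJ_mul_apply, Finset.sum_eq_single i, Finset.sum_eq_single j]
  · simp only [PROJ_blk_apply, PROJ_J_apply, if_true, one_mul, Fintype.sum_bool]
    cases s <;> cases t <;> simp [PROJ_j]
  · intro k _ hk
    simp [PROJ_J_apply, hk]
  · intro h
    exact absurd (Finset.mem_univ _) h
  · intro k _ hk
    simp [PROJ_J_apply, hk.symm]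
  · intro h
    exact absurd (Finset.mem_univ _) h

/-- the twisted conjugation exchanges the blocks -/
theorem PROJ_twist {n : ℕ} (M : Bool → GL (Fin n) ℂ) :
    (PROJ_C n)⁻¹ * cj (PROJ_C n * PROJ_blk n M * (PROJ_C n)⁻¹) * PROJ_C n =
      PROJ_blk n (fun s => cj (M (!s))) := by
  have key : cj (PROJ_C n) * cj (PROJ_blk n M) * (cj (PROJ_C n))⁻¹ * PROJ_C n =
      PROJ_C n * PROJ_blk n (fun s => cj (M (!s))) := by
    rw [PROJ_cj_blk, PROJ_cj_C, mul_inv_rev, mul_assoc (PROJ_C n) (PROJ_J n), PROJ_J_blk]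
    group
  rw [map_mul, map_mul, map_inv, mul_assoc, key, inv_mul_cancel_left]

theorem PROJ_blk_of {n : ℕ} {g : GL (Fin (PROJ_N n)) ℂ}
    (h : ∀ i j s t, s ≠ t → (g : Matrix (Fin (PROJ_N n)) (Fin (PROJ_N n)) ℂ) (PROJ_e n (i, s))
      (PROJ_e n (j, t)) = 0)
    (h' : ∀ i j s t, s ≠ t → ((g⁻¹ : GL (Fin (PROJ_N n)) ℂ) :
      Matrix (Fin (PROJ_N n)) (Fin (PROJ_N n)) ℂ) (PROJ_e n (i, s)) (PROJ_e n (j, t)) = 0) :
    ∃ M : Bool → GL (Fin n) ℂ, g = PROJ_blk n M := by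
  have key : ∀ a b : GL (Fin (PROJ_N n)) ℂ, a * b = 1 →
      (∀ i j s t, s ≠ t → (a : Matrix (Fin (PROJ_N n)) (Fin (PROJ_N n)) ℂ) (PROJ_e n (i, s))
      (PROJ_e n (j, t)) = 0) → ∀ s,
      (Matrix.of fun i j => (a : Matrix (Fin (PROJ_N n)) (Fin (PROJ_N n)) ℂ) (PROJ_e n (i, s))
        (PROJ_e n (j, s)) : Matrix (Fin n) (Fin n) ℂ) *
      (Matrix.of fun i j => (b : Matrix (Fin (PROJ_N n)) (Fin (PROJ_N n)) ℂ) (PROJ_e n (i, s))
        (PROJ_e n (j, s)) : Matrix (Fin n) (Fin n) ℂ) = 1 := by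
    intro a b hab ha s
    ext i j
    have h1 : (((a * b : GL (Fin (PROJ_N n)) ℂ)) : Matrix (Fin (PROJ_N n)) (Fin (PROJ_N n)) ℂ)
      (PROJ_e n (i, s)) (PROJ_e n (j, s)) = (1 : Matrix (Fin n) (Fin n) ℂ) i j := by
      rw [hab, Units.val_one, Matrix.one_apply, Matrix.one_apply]
      congr 1
      simp
    rw [← h1, PROJ_mul_apply, Matrix.mul_apply]
    refine Finset.sum_congr rfl fun k _ => ?_
    rw [Finset.sum_eq_single s]
    · rfl
    · intro r _ hr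
      rw [ha _ _ _ _ hr.symm, zero_mul]
    · intro h
      exact absurd (Finset.mem_univ _) h
  refine ⟨fun s => ⟨_, _, key g g⁻¹ (mul_inv_cancel g) h s, key g⁻¹ g (inv_mul_cancel g) h' s⟩, ?_⟩
  apply PROJ_GL_ext
  intro i j s t
  rw [PROJ_blk_apply]
  split_ifs with hst
  · subst hst
    rfl
  · exact h _ _ _ _ hst

theorem PROJ_entries_blk {n : ℕ} (M : Bool → GL (Fin n) ℂ) (s : Bool)
    (p : MvPolynomial ((Fin n × Fin n) ⊕ (Fin n × Fin n)) ℂ) :
    eval (entries (PROJ_blk n M)) (rename (Sum.map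
      (fun ij : Fin n × Fin n => (PROJ_e n (ij.1, s), PROJ_e n (ij.2, s)))
      (fun ij : Fin n × Fin n => (PROJ_e n (ij.1, s), PROJ_e n (ij.2, s)))) p) =
      eval (entries (M s)) p := by
  rw [eval_rename]
  congr 1
  congr 1
  funext t
  rcases t with ⟨i, j⟩ | ⟨i, j⟩
  · simp only [entries, Function.comp, Sum.map_inl, Sum.elim_inl, PROJ_blk_apply, if_true]
  · simp only [entries, Function.comp, Sum.map_inr, Sum.elim_inr]
    rw [← map_inv, PROJ_blk_apply, if_pos rfl]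
    rfl

theorem PROJ_eval_cj {n : ℕ} (g : GL (Fin n) ℂ)
    (p : MvPolynomial ((Fin n × Fin n) ⊕ (Fin n × Fin n)) ℂ) :
    eval (entries (cj g)) p = conj (eval (entries g) (MvPolynomial.map (starRingEnd ℂ) p)) := by
  induction p using MvPolynomial.induction_on with
  | C a => rw [map_C, eval_C, eval_C, Complex.conj_conj]
  | add p q hp hq => rw [map_add, map_add, map_add, map_add, hp, hq]
  | mul_X p t hp =>
    rw [map_mul, map_mul, map_mul, map_mul, hp, map_X, eval_X, eval_X]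
    congr 1
    rcases t with ⟨i, j⟩ | ⟨i, j⟩
    · rfl
    · simp only [entries, Sum.elim_inr]
      rw [← map_inv]
      rfl

theorem PROJ_comap_closed {n : ℕ} {Z : Subgroup (GL (Fin n) ℂ)}
    (hZ : ZClosed (Z : Set (GL (Fin n) ℂ))) :
    ZClosed ((Z.comap cj : Subgroup (GL (Fin n) ℂ)) : Set (GL (Fin n) ℂ)) := by
  obtain ⟨I, hI⟩ := hZ
  refine ⟨(MvPolynomial.map (starRingEnd ℂ)) '' I, ?_⟩
  ext g
  have h1 : g ∈ ((Z.comap cj : Subgroup (GL (Fin n) ℂ)) : Set (GL (Fin n) ℂ)) ↔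
      cj g ∈ (Z : Set (GL (Fin n) ℂ)) := Iff.rfl
  rw [h1, hI]
  change (∀ p ∈ I, eval (entries (cj g)) p = 0) ↔ ∀ p ∈ (MvPolynomial.map (starRingEnd ℂ)) '' I,
    eval (entries g) p = 0
  constructor
  · rintro h _ ⟨p, hp, rfl⟩
    have h2 := h p hp
    rw [PROJ_eval_cj] at h2
    exact (map_eq_zero _).1 h2
  · intro h p hp
    rw [PROJ_eval_cj, h _ ⟨p, hp, rfl⟩, map_zero]

theorem PROJ_col_ne {K : Type} [Field K] [Algebra ℂ K] {n : ℕ} {v : Fin n → K}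
    (hv : LinearIndependent ℂ v) (M : GL (Fin n) ℂ) (j : Fin n) :
    ∑ l, (M : Matrix (Fin n) (Fin n) ℂ) l j • v l ≠ 0 := by
  intro h
  rw [Fintype.linearIndependent_iff] at hv
  have h1 := hv _ h
  have h2 : (((M⁻¹ * M : GL (Fin n) ℂ)) : Matrix (Fin n) (Fin n) ℂ) j j = 1 := by
    rw [inv_mul_cancel]
    simp
  rw [Units.val_mul, Matrix.mul_apply, Finset.sum_eq_zero (fun l _ => by rw [h1 l, mul_zero])] at h2
  exact zero_ne_one h2

theorem PROJ_rel_of {K : Type} [Field K] [Algebra ℂ K] {n : ℕ} {v : Fin n → K}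
    (hv : LinearIndependent ℂ v) (M : GL (Fin n) ℂ) (a : K ≃ₐ[ℂ] K)
    (h : ∀ i j, (∑ l, (M : Matrix (Fin n) (Fin n) ℂ) l j • v l) * a (v i / v j) =
      ∑ l, (M : Matrix (Fin n) (Fin n) ℂ) l i • v l) : LinRel v a M := by
  rcases Nat.eq_zero_or_pos n with h0 | h0
  · subst h0
    exact ⟨1, one_ne_zero, fun i => i.elim0⟩
  · let k : Fin n := ⟨0, h0⟩
    have hk : a (v k) ≠ 0 := (map_ne_zero a).2 (hv.ne_zero k)
    have hs := PROJ_col_ne hv M k
    refine ⟨a (v k) / ∑ l, (M : Matrix (Fin n) (Fin n) ℂ) l k • v l, div_ne_zero hk hs,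
      fun i => ?_⟩
    have h1 := h i k
    rw [map_div₀] at h1
    rw [← h1]
    field_simp

/-! ## The theorem -/

theorem st_PROJ (hT : ST_THK) (hB : ST_BS2) : ST_PROJ := by
  classical
  intro K _ _ X A S hX hS n v hv hgen Z hZ μ hμ
  have hanti := hS.anti μ hμ
  have hinv := hS.invol μ hμ
  -- the two families and the two conditions
  let u : Bool → Fin n → K := fun s => cond s v (fun i => μ (v i))
  let Zs : Bool → Subgroup (GL (Fin n) ℂ) := fun s => cond s Z (Z.comap cj)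
  have hu : ∀ s, LinearIndependent ℂ (u s) := by
    rintro (_ | _)
    · change LinearIndependent ℂ (fun i => μ (v i))
      rw [Fintype.linearIndependent_iff] at hv ⊢
      intro g hg i
      have h1 : ∑ i, conj (g i) • v i = 0 := by
        apply μ.injective
        rw [map_zero, ← hg, map_sum]
        refine Finset.sum_congr rfl fun j _ => ?_
        rw [Algebra.smul_def, map_mul, hanti, Complex.conj_conj, ← Algebra.smul_def]
      have h2 := hv _ h1 i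
      simpa using h2
    · exact hv
  -- the group
  let Γ : Subgroup (GL (Fin (PROJ_N n)) ℂ) :=
    { carrier := {g | ∃ M : Bool → GL (Fin n) ℂ, (∀ s, M s ∈ Zs s) ∧ g = PROJ_blk n M ∧
        ∃ a ∈ A, ∀ s, LinRel (u s) a (M s)}
      one_mem' := ⟨1, fun s => (Zs s).one_mem, (map_one _).symm, 1, A.one_mem,
        fun s => PROJ_rel_one⟩
      mul_mem' := by
        rintro _ _ ⟨M, hM, rfl, a, ha, haM⟩ ⟨M', hM', rfl, a', ha', haM'⟩
        exact ⟨M * M', fun s => (Zs s).mul_mem (hM s) (hM' s), (map_mul _ _ _).symm, a * a',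
          A.mul_mem ha ha', fun s => PROJ_rel_mul (haM s) (haM' s)⟩
      inv_mem' := by
        rintro _ ⟨M, hM, rfl, a, ha, haM⟩
        exact ⟨M⁻¹, fun s => (Zs s).inv_mem (hM s), (map_inv _ _).symm, a⁻¹,
          A.inv_mem ha, fun s => PROJ_rel_inv (haM s)⟩ }
  have hΓ : ∀ g, g ∈ Γ ↔ ∃ M : Bool → GL (Fin n) ℂ, (∀ s, M s ∈ Zs s) ∧ g = PROJ_blk n M ∧
        ∃ a ∈ A, ∀ s, LinRel (u s) a (M s) := fun g => Iff.rfl
  have huniq : ∀ (a b : K ≃ₐ[ℂ] K) (M : Bool → GL (Fin n) ℂ), (∀ s, LinRel (u s) a (M s)) →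
      (∀ s, LinRel (u s) b (M s)) → a = b := fun a b M h h' =>
    PROJ_rel_uniq hgen (h true) (h' true)
  -- the homomorphism
  have hex : ∀ g : Γ, ∃ a : K ≃ₐ[ℂ] K, a ∈ A ∧ ∀ M : Bool → GL (Fin n) ℂ, (g : GL _ ℂ) = PROJ_blk n M →
      ∀ s, LinRel (u s) a (M s) := by
    rintro ⟨g, M, hM, rfl, a, ha, haM⟩
    refine ⟨a, ha, fun M' hM' s => ?_⟩
    rw [← PROJ_blk_inj hM']
    exact haM s
  choose φ₀ hφA hφ₀ using hex
  let φ : Γ →* (K ≃ₐ[ℂ] K) := MonoidHom.mk' φ₀ (by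
    rintro ⟨g, hg⟩ ⟨g', hg'⟩
    obtain ⟨M, -, rfl, -⟩ := id hg
    obtain ⟨M', -, rfl, -⟩ := id hg'
    refine huniq _ _ (M * M') (hφ₀ _ _ ?_) (fun s => PROJ_rel_mul (hφ₀ _ _ rfl s) (hφ₀ _ _ rfl s))
    exact (map_mul _ _ _).symm)
  have hφA' : ∀ g : Γ, φ g ∈ A := hφA
  have hφ : ∀ (g : Γ) (M : Bool → GL (Fin n) ℂ), (g : GL _ ℂ) = PROJ_blk n M →
      ∀ s, LinRel (u s) (φ g) (M s) := hφ₀
  have hφa : ∀ (g : Γ) (M : Bool → GL (Fin n) ℂ), (g : GL _ ℂ) = PROJ_blk n M →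
      ∀ a : K ≃ₐ[ℂ] K, (∀ s, LinRel (u s) a (M s)) → a = φ g := fun g M hM a ha =>
    huniq _ _ M ha (hφ g M hM)
  -- closedness
  have hclosed : ZClosed (Γ : Set (GL (Fin (PROJ_N n)) ℂ)) := by
    have hZs : ∀ s, ZClosed (Zs s : Set (GL (Fin n) ℂ)) := by
      rintro (_ | _)
      · exact PROJ_comap_closed hZ
      · exact hZ
    have hoff : ∀ w ∈ PROJ_cl Γ, ∀ i j s t, s ≠ t →
        (w : Matrix (Fin (PROJ_N n)) (Fin (PROJ_N n)) ℂ) (PROJ_e n (i, s))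
          (PROJ_e n (j, t)) = 0 := by
      intro w hw i j s t hst
      have h1 := hw (MvPolynomial.X (Sum.inl (PROJ_e n (i, s), PROJ_e n (j, t)))) (by
        rintro γ ⟨M, -, rfl, -⟩
        rw [eval_X]
        change (PROJ_blk n M : Matrix (Fin (PROJ_N n)) (Fin (PROJ_N n)) ℂ) (PROJ_e n (i, s))
          (PROJ_e n (j, t)) = 0
        rw [PROJ_blk_apply, if_neg hst])
      rw [eval_X] at h1
      exact h1
    have hblk : ∀ w ∈ PROJ_cl Γ, ∃ M : Bool → GL (Fin n) ℂ, w = PROJ_blk n M := fun w hw =>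
      PROJ_blk_of (hoff w hw) (hoff w⁻¹ ((PROJ_cl Γ).inv_mem hw))
    have hZmem : ∀ M : Bool → GL (Fin n) ℂ, PROJ_blk n M ∈ PROJ_cl Γ → ∀ s, M s ∈ Zs s := by
      intro M hM s
      obtain ⟨I, hI⟩ := hZs s
      change M s ∈ (Zs s : Set (GL (Fin n) ℂ))
      rw [hI]
      intro p hp
      rw [← PROJ_entries_blk M s p]
      apply hM
      rintro γ ⟨M', hM', rfl, -⟩
      rw [PROJ_entries_blk]
      have h2 : M' s ∈ (Zs s : Set (GL (Fin n) ℂ)) := hM' s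
      rw [hI] at h2
      exact h2 p hp
    let e2 : Bool × Fin n × Fin n ≃ Fin (Fintype.card (Bool × Fin n × Fin n)) :=
      Fintype.equivFin _
    let S' : Bool → Fin n → PROJ_cl Γ → K := fun s i w =>
      ∑ l, (w : GL (Fin (PROJ_N n)) ℂ) (PROJ_e n (l, s)) (PROJ_e n (i, s)) • u s l
    have hS' : ∀ s i, GFam (groupFun (PROJ_cl Γ)) (S' s i) := by
      intro s i
      refine ⟨n, fun l w => (w : GL (Fin (PROJ_N n)) ℂ) (PROJ_e n (l, s)) (PROJ_e n (i, s)),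
        u s, fun l => ?_, fun w => rfl⟩
      rw [mem_groupFun]
      exact ⟨MvPolynomial.X (Sum.inl (PROJ_e n (l, s), PROJ_e n (i, s))), fun w => by rw [eval_X]; rfl⟩
    have hSblk : ∀ (M : Bool → GL (Fin n) ℂ) (hM : PROJ_blk n M ∈ PROJ_cl Γ) s i,
        S' s i ⟨PROJ_blk n M, hM⟩ = ∑ l, (M s : Matrix (Fin n) (Fin n) ℂ) l i • u s l := by
      intro M hM s i
      refine Finset.sum_congr rfl fun l _ => ?_
      congr 1
      exact (PROJ_blk_apply M l i s s).trans (if_pos rfl)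
    obtain ⟨a', ha'X, ha', -, ha'C⟩ := hT K X hX (PROJ_N n) (PROJ_cl Γ) Γ (PROJ_cl_closed Γ)
      (PROJ_le_cl Γ) (fun p hp w hw => hw p hp) φ
      (fun γ => (hS.mem.choose_spec (φ γ)).1 (hφA γ) |>.1)
      (Fintype.card (Bool × Fin n × Fin n))
      (fun k => u (e2.symm k).1 (e2.symm k).2.1 / u (e2.symm k).1 (e2.symm k).2.2)
      (by
        unfold FGen
        rw [eq_top_iff]
        have hgen' : IntermediateField.adjoin ℂ {x : K | ∃ i j, x = v i / v j} = ⊤ := hgen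
        rw [← hgen']
        apply IntermediateField.adjoin.mono
        rintro x ⟨i, j, rfl⟩
        refine ⟨e2 (true, i, j), ?_⟩
        simp only [Equiv.symm_apply_apply]
        rfl)
      (fun k => S' (e2.symm k).1 (e2.symm k).2.1) (fun k => S' (e2.symm k).1 (e2.symm k).2.2)
      (fun k => hS' _ _) (fun k => hS' _ _)
      (by
        rintro k ⟨w, hw⟩
        obtain ⟨M, rfl⟩ := hblk w hw
        rw [hSblk]
        exact PROJ_col_ne (hu _) _ _)
      (by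
        rintro k ⟨w, hw⟩
        obtain ⟨M, rfl⟩ := hblk w (PROJ_le_cl Γ hw)
        rw [hSblk, hSblk]
        obtain ⟨f, hf, h⟩ := hφ ⟨_, hw⟩ M rfl (e2.symm k).1
        rw [map_div₀, h, h, mul_div_mul_left _ _ hf, mul_div_cancel₀]
        exact PROJ_col_ne (hu _) _ _)
    have heq : (Γ : Set (GL (Fin (PROJ_N n)) ℂ)) = (PROJ_cl Γ : Set (GL (Fin (PROJ_N n)) ℂ)) := by
      apply Set.Subset.antisymm
      · exact fun g hg => PROJ_le_cl Γ hg
      · intro w hw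
        obtain ⟨M, rfl⟩ := hblk w hw
        refine ⟨M, hZmem M hw, rfl, a' ⟨_, hw⟩, ?_, ?_⟩
        · rw [hS.mem.choose_spec]
          refine ⟨ha'X _, fun b hb => ?_⟩
          refine (ha'C b (fun γ => ?_) ⟨_, hw⟩).symm
          exact (((hS.mem.choose_spec (φ γ)).1 (hφA γ)).2 b hb).symm
        · intro s
          refine PROJ_rel_of (hu s) _ _ fun i j => ?_
          have h1 := ha' (e2 (s, i, j)) ⟨_, hw⟩
          simp only [Equiv.symm_apply_apply] at h1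
          rw [hSblk, hSblk] at h1
          exact h1
    rw [heq]
    exact PROJ_cl_closed Γ
  -- stability
  have hstab : ∀ a ∈ A, ∀ M : Bool → GL (Fin n) ℂ, (∀ s, LinRel (u s) a (M s)) →
      ∃ a' ∈ A, (∀ r, a' r = μ (a (μ r))) ∧ ∀ s, LinRel (u s) a' (cj (M (!s))) := by
    intro a ha M hM
    obtain ⟨a', ha', h⟩ := hS.norm μ hμ a ha
    have hfun : (a' : K → K) = fun r => μ (a (μ r)) := funext h
    refine ⟨a', ha', h, ?_⟩
    rw [hfun]
    rintro (_ | _)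
    · exact PROJ_rel_conj hanti hinv (hM true)
    · have h1 := PROJ_rel_conj hanti hinv (hM false)
      have h2 : (fun i => μ (u false i)) = v := funext fun i => hinv (v i)
      rw [h2] at h1
      exact h1
  have hcjZ : ∀ M : Bool → GL (Fin n) ℂ, (∀ s, M s ∈ Zs s) → ∀ s, cj (M (!s)) ∈ Zs s := by
    intro M hM
    rintro (_ | _)
    · change cj (cj (M true)) ∈ Z
      rw [PROJ_cj_cj]
      exact hM true
    · exact hM false
  have hst : ∀ g ∈ Γ, (PROJ_C n)⁻¹ * cj (PROJ_C n * g * (PROJ_C n)⁻¹) * PROJ_C n ∈ Γ := by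
    rintro _ ⟨M, hM, rfl, a, ha, haM⟩
    obtain ⟨a', ha', -, h⟩ := hstab a ha M haM
    exact ⟨fun s => cj (M (!s)), hcjZ M hM, PROJ_twist M, a', ha', h⟩
  obtain ⟨T, hTΓ, hT'⟩ := hB _ Γ hclosed (PROJ_C n) hst
  refine ⟨T.image (fun g => if h : g ∈ Γ then φ ⟨g, h⟩ else 1), ?_, ?_⟩
  · intro b hb
    obtain ⟨g, -, rfl⟩ := Finset.mem_image.1 hb
    split_ifs with h
    · exact hφA _
    · exact A.one_mem
  · rintro a ha ⟨M, hMZ, hM⟩ - hcoc
    -- the inverse of `a`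
    have hasymm : ∀ r, a.symm r = μ (a (μ r)) := by
      intro r
      apply a.injective
      rw [AlgEquiv.apply_symm_apply, hcoc]
    let Mf : Bool → GL (Fin n) ℂ := fun s => cond s M (cj M)⁻¹
    have hMf : ∀ s, LinRel (u s) a (Mf s) := by
      rintro (_ | _)
      · have h1 := PROJ_rel_conj hanti hinv (PROJ_rel_inv hM)
        have h2 : (fun r => μ ((a⁻¹ : K ≃ₐ[ℂ] K) (μ r))) = a := by
          funext r
          rw [AlgEquiv.aut_inv, hasymm, hinv, hinv]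
        rw [h2, map_inv] at h1
        exact h1
      · exact hM
    have hMfZ : ∀ s, Mf s ∈ Zs s := by
      rintro (_ | _)
      · change cj (cj M)⁻¹ ∈ Z
        rw [map_inv, PROJ_cj_cj]
        exact Z.inv_mem hMZ
      · exact hMZ
    have hγ : PROJ_blk n Mf ∈ Γ := ⟨Mf, hMfZ, rfl, a, ha, hMf⟩
    obtain ⟨b, hb, x, hx, hbx⟩ := hT' _ hγ (by
      rw [PROJ_twist, ← map_mul, ← map_one (PROJ_blk n)]
      congr 1
      funext s
      rcases s with _ | _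
      · exact inv_mul_cancel (cj M)
      · change M * cj (cj M)⁻¹ = 1
        rw [map_inv, PROJ_cj_cj, mul_inv_cancel])
    obtain ⟨Mx, hMxZ, rfl, -⟩ := id hx
    obtain ⟨x', hx'A, hx', hx'M⟩ := hstab _ (hφA' ⟨_, hx⟩) Mx (hφ ⟨_, hx⟩ Mx rfl)
    refine ⟨φ ⟨b, hTΓ b hb⟩, Finset.mem_image.2 ⟨b, hb, dif_pos (hTΓ b hb)⟩, φ ⟨_, hx⟩,
      hφA _, ⟨Mx true, hMxZ true, hφ ⟨_, hx⟩ Mx rfl true⟩, ⟨cj (Mx false), hMxZ false, ?_⟩, ?_⟩
    · have h1 : (fun r => μ (φ ⟨_, hx⟩ (μ r))) = (x' : K → K) := (funext hx').symm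
      rw [h1]
      exact hx'M true
    · intro r
      have e1 : a = φ ⟨_, hγ⟩ := hφa ⟨_, hγ⟩ Mf rfl a hMf
      have e2 : x' = φ ⟨_, hst _ hx⟩ := hφa ⟨_, hst _ hx⟩ _ (PROJ_twist Mx) x' hx'M
      have e3 : (⟨_, hγ⟩ : Γ) = ⟨_, hx⟩ * ⟨b, hTΓ b hb⟩ * (⟨_, hst _ hx⟩ : Γ)⁻¹ :=
        Subtype.ext hbx
      have e4 : a = φ ⟨_, hx⟩ * φ ⟨b, hTΓ b hb⟩ * x'⁻¹ := by
        rw [e1, e2, e3, map_mul, map_mul, map_inv]
      have e5 : x'.symm (μ r) = μ ((φ ⟨_, hx⟩).symm r) := by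
        apply x'.injective
        rw [AlgEquiv.apply_symm_apply, hx', hinv, AlgEquiv.apply_symm_apply]
      rw [e4, AlgEquiv.mul_apply, AlgEquiv.mul_apply, AlgEquiv.aut_inv, e5]

end Pool.Agent.Helper43.FV
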